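import Mathlib
import Pool.Agent.U615.ZH.Main3

/-!
# A zero density theorem of Ingham and Montgomery for `GL(n)`, and the Lindelöf bound for almost all `L`-functions

Let `K` be a number field, `n ≥ 1`. The theorem is about **every** family of pairwise different unitary cuspidal automorphic
representations `π_f` of `GL_n` over `K` (any levels, any archimedean types), and `L(s) = L(s, π_f × π'~)`, where `π'` is a fixed
unitary cuspidal representation of `GL_{n'}`; the trivial representation of `GL_1` gives the standard `L`-functions. Let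
`1/2 < σ ≤ 1` and

  `zexp k σ = min (2 (k + 1) / (k + 2 - 2 σ), (k + 2) / (2 - 2 σ + k (2 σ - 1))) (1 - σ)`;

for `k = 2` this is the smaller one of `3 (1 - σ)/(2 - σ)` (Ingham) and `2 (1 - σ)/σ` (Montgomery).

1. Let `C` bound the analytic conductors of `L(s, π_f × π'~)` at `i Im s_f`, `Q` those of the pairs `L(s, π_f × π_g~)` at
   `i (Im s_f - Im s_g)`, `f = g` included, `Q'` that of `L(s, π' × π'~)`, and let `G = C Q Q'` be large in terms of `K`, `n`, `n'`,
   `k`, `σ`, `ε`, and at least the product of the norms of the places at which `π_f` is ramified. Let the value at `s_f` be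
   exceptional for every `f ∈ T`: either `Re s_f ≥ σ` and **not** `G^{-ε} ≤ |L(s_f)| ≤ G^ε` (for instance `L(s_f) = 0`), or
   `σ ≤ 3/4`, `1 - σ ≤ Re s_f ≤ σ` and `|L(s_f)| > G^ε C^{(σ - Re s_f)/2}`. Then, for every `k ≥ 0` and every `1 ≤ Y ≤ G`,

   `|T| ≤ G^ε (W + (C^{k/2} + Q) Y^{-k (2σ - 1)})`,

   with `W = Q^{2 - 2σ} Y^{(2 - 2σ)(2σ - 1)}` or, if `σ ≥ 3/4`, also with `W = Q^{(1 - σ)/(2σ - 1)} Y^{2 - 2σ}`.
2. If `k ≥ 1` and `C^{k/2} ≤ Q`, then `|T| ≤ G^ε Q^{zexp k σ}`.
3. In a universal family, with `C(π)` the conductor of `L(s, π × π'~)` and conductors of the pairs at most `B (C(π_f) C(π_g))^n`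
   (for standard `L`-functions this is known, with `B` depending on `K` and `n`, from the bound of Bushnell and Henniart): for
   large `X` there is an exceptional set with at most `X^{2 n zexp (4n) σ + ε}` elements such that all other `π` with
   `C(π) ≤ X` satisfy, for all `s` with `|Im s| ≤ X^c`, `c > 0`,

   * `X^{-ε} ≤ |L(s)| ≤ X^ε` if `Re s ≥ σ`,
   * `|L(s)| ≤ X^{(σ - Re s)/2 + ε}` if `1 - σ ≤ Re s ≤ σ ≤ 3/4`.
4. For `σ > σ_n = (3n + 1)(2n - 1)/(8n² + n - 1)` the exponent `2 n zexp (4n) σ` is smaller than `n + 1`.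

There are about `X^{n + 1}` unitary cuspidal `π` on `GL_n` with `C(π) ≤ X` (Brumley, Milićević). So **for 100 per cent of all
unitary cuspidal representations of `GL_n`, ordered by conductor, the full Lindelöf bound `|L(s, π)| ≤ C(π)^ε` and the lower
bound `|L(s, π)| ≥ C(π)^{-ε}` hold in `Re s ≥ σ_n + δ`, `|Im s| ≤ C(π)^c`, and the subconvexity bound
`|L(s, π)| ≤ C(π)^{(σ_n - Re s)/2 + δ}` holds uniformly in the strip between the critical line and `σ_n`**, where `σ_1 = 1/2`,
`σ_2 = 7/11`, `σ_3 = 25/37`, `σ_4 = 91/131`, and `σ_n < 3/4` for all `n`; the exceptions are at most `X^{n + 1 - c'}` (the convexity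
bound has the exponent `(1 - Re s)/2`). For `n = 1`, i.e. the Hecke characters of `K` with all moduli and all infinity types,
this is the Lindelöf bound in the whole critical strip.

Comparison. The theorem `LindelofForAlmostAll` (a starting file of this problem) has the bound
`|T| ≤ G^ε Q^{2 (1 - σ)/max(1, 4σ - 2)} C^{(1 - σ)/σ}` and `3/4 - 1/(6n + 4)` (`0.65`, `0.6875`, `0.7045…`, …) in place of `σ_n`
(`0.5`, `0.6363…`, `0.6756…`, …); near `σ = 1/2` it is worse than the trivial bound. `HuxleyMoments` (for `MP_cf4097_nt`)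
treats the values on the critical line only; its exponent there, `(n - 1)/(8n)`, is slightly smaller than
`(σ_n - 1/2)/2 = (4n + 1)(n - 1)/(4 (8n² + n - 1))`, but to the right of the line it gives nothing better than the
Phragmén-Lindelöf bound `(n - 1)(1 - Re s)/(4n)`, no Lindelöf bound for any `Re s < 1` and nothing about zeros. Zero
density theorems for families of `GL(n)` which are not given by a trace formula are due to Kowalski and Michel (2002: one
archimedean type, Satake parameters at most `p^θ` with `θ < 1/4`, not known for `n ≥ 3`), and, without such assumptions, to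
Brumley, Thorner and Zaman, Humphries and Thorner, with exponents like `6.15 n^4 (1 - σ)`, which say something about 100 per
cent of all `π` only for `Re s > 1 - c/n³`. (These results are log-free, i.e. better at the edge. For
`n = 1`, `K = ℚ` the theorem is classical: Ingham, Montgomery, Huxley, Jutila; on `GL(2)` more is known for families given by
trace formulas.) Nothing is assumed on the size of the family or towards the Ramanujan conjecture.

The structure `GLFamily` lists what is used on the pairs `π_f × π_g~`, `Twists` what is used on `π_f × π'~`; all of it is known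
for unitary cuspidal representations with central characters trivial on the positive reals (Jacquet, Piatetski-Shapiro,
Shalika; Moeglin, Waldspurger), for `n' = 1` (for `n' > 1` the field `re_gt` of `Twists`, `Re μ_j > -1/2`, is an assumption on the
archimedean components). `S f` is the set of the places where `π_f` is ramified; the product of the norms of its elements is at
most the conductor of `π_f`. The numbers `u(v, k, j)` are the normalised coefficients of `log L(s, π × π~)`, a vector for every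
`π` (of any degree) such that the coefficients of `log L(s, π × π'~)` are the scalar products.

The proof. Let `ρ_f` be a zero with `Re ρ_f ≥ σ`. `L(s, π_f × π'~)` times a truncated inverse of length `G^δ` has the coefficients
`1` at the ideal `1` and `0` at the other ideals up to this length. The sum smoothed at the length `Y` is evaluated at `ρ_f` by
shifting the line of integration to the **critical line** (in `LindelofForAlmostAll` it is shifted to the left of the critical
strip, with `Y = C^{1/(2σ) + ε}`; here `Y` is free). So either (I) a Dirichlet polynomial of length `Y G^ε` without these terms is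
at least `1/8` at `ρ_f`, or (II) `|L(1/2 + i (Im ρ_f + v))| ≥ Y^{σ - 1/2} G^{-ε} (1 + |v|)^A` for some `v`, and then `|v| ≤ G^ω` by the
convexity bound. The members of class (II) are counted by the `2k`-th moments of `HuxleyMoments` at the shifted points. In
class (I) a bounded power of a short block of the polynomial is large for many `f`. All these polynomials are linear
functionals of the vectors `exp(u_f)` in the Fock space of `u`. The new point: the large sieve of `HuxleyMoments` with the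
constant `N + Q`, which multiplies a functional of length `N < Q` by the determinants of the Satake matrices at a few places
in order to move its support beyond `Q`, is used off the critical line. So the powers of a block with lengths below `Q`
can be used as well as the powers with lengths above `Q` (`LindelofForAlmostAll` has only the latter), and the better one of
two consecutive powers gives the factor `Y^{(2 - 2σ)(2σ - 1)}`. For `σ ≥ 3/4` there is also the bound by the inequality of
Halász and Montgomery. Members without zeros in `Re s ≥ σ - η` close to the point satisfy the Lindelöf bound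
(Borel, Carathéodory, Hadamard; Rankin and Selberg), and the functional equation and the three lines theorem give the
critical strip.
-/

set_option autoImplicit false

namespace Pool.Agent.Results.MP_52e316_nt.InghamMontgomery

open Complex NumberField IsDedekindDomain
open Pool.Agent.N846.DU (GLFamily VX Nv)
open Pool.Agent.N846.LM (Twists)
open Pool.Agent.U615.ZH (zexp all ing univ zexp_univ)

/-- **Ingham's and Montgomery's zero density theorem for all families of `L`-functions of `GL(n)`; the Lindelöf bound in a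
half plane for almost all cuspidal representations.** -/
theorem result (K : Type) [Field K] [NumberField K] (n N n' N' N'' : ℕ) (hn : 1 ≤ n) {ε σ : ℝ} (hε : 0 < ε)
    (hσ : 1 / 2 < σ) (hσ1 : σ ≤ 1) :
    (∀ k : ℕ, ∃ A : ℝ, 1 ≤ A ∧
      ∀ (ι : Type) (S : ι → Finset (HeightOneSpectrum (𝓞 K)))
        (α : ι → HeightOneSpectrum (𝓞 K) → Fin n → ℂ) (u : ι → VX K → ℂ) (q : ι → ι → ℝ) (κ : ι → ι → Fin N → ℂ)
        (S' : Finset (HeightOneSpectrum (𝓞 K))) (α' : HeightOneSpectrum (𝓞 K) → Fin n' → ℂ) (w : VX K → ℂ) (q' : ℝ)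
        (κ' : Fin N'' → ℂ) (qs : ι → ℝ) (μ : ι → Fin N' → ℂ) (L : ι → ℂ → ℂ),
        GLFamily n N S α u q κ → Twists n' N' N'' u S' α' w q' κ' qs μ L →
        ∀ (T : Set ι) (s : ι → ℂ) (C Q Q' Y : ℝ), 1 ≤ C → 1 ≤ Q → q' * ∏ j, (1 + ‖κ' j‖) ≤ Q' → A ≤ C * Q * Q' →
          1 ≤ Y → Y ≤ C * Q * Q' → (∀ f ∈ T, ∏ v ∈ S f, Nv v ≤ C * Q * Q') →
          (∀ f ∈ T, qs f * ∏ j, (1 + ‖μ f j + (s f).im * I‖) ≤ C) →
          (∀ f ∈ T, ∀ g ∈ T, q f g * ∏ j, (1 + ‖κ f g j + ((s f).im - (s g).im) * I‖) ≤ Q) →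
          (∀ f ∈ T,
            (σ ≤ (s f).re ∧ ¬((C * Q * Q') ^ (-ε) ≤ ‖L f (s f)‖ ∧ ‖L f (s f)‖ ≤ (C * Q * Q') ^ ε)) ∨
            (σ ≤ 3 / 4 ∧ 1 - σ ≤ (s f).re ∧ (s f).re ≤ σ ∧
              (C * Q * Q') ^ ε * C ^ ((σ - (s f).re) / 2) < ‖L f (s f)‖)) →
          ∀ W : ℝ, (W = Q ^ (2 - 2 * σ) * Y ^ ((2 - 2 * σ) * (2 * σ - 1)) ∨
            (3 / 4 ≤ σ ∧ W = Q ^ ((2 - 2 * σ) / (4 * σ - 2)) * Y ^ (2 - 2 * σ))) →
          T.Finite ∧ (T.ncard : ℝ) ≤ (C * Q * Q') ^ ε *
            (W + (C ^ ((k : ℝ) / 2) + Q) * Y ^ (-(k * (2 * σ - 1))))) ∧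
    (∀ k : ℕ, 1 ≤ k → ∃ A : ℝ, 1 ≤ A ∧
      ∀ (ι : Type) (S : ι → Finset (HeightOneSpectrum (𝓞 K)))
        (α : ι → HeightOneSpectrum (𝓞 K) → Fin n → ℂ) (u : ι → VX K → ℂ) (q : ι → ι → ℝ) (κ : ι → ι → Fin N → ℂ)
        (S' : Finset (HeightOneSpectrum (𝓞 K))) (α' : HeightOneSpectrum (𝓞 K) → Fin n' → ℂ) (w : VX K → ℂ) (q' : ℝ)
        (κ' : Fin N'' → ℂ) (qs : ι → ℝ) (μ : ι → Fin N' → ℂ) (L : ι → ℂ → ℂ),
        GLFamily n N S α u q κ → Twists n' N' N'' u S' α' w q' κ' qs μ L →
        ∀ (T : Set ι) (s : ι → ℂ) (C Q Q' : ℝ), 1 ≤ C → 1 ≤ Q → q' * ∏ j, (1 + ‖κ' j‖) ≤ Q' → A ≤ C * Q * Q' →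
          C ^ ((k : ℝ) / 2) ≤ Q → (∀ f ∈ T, ∏ v ∈ S f, Nv v ≤ C * Q * Q') →
          (∀ f ∈ T, qs f * ∏ j, (1 + ‖μ f j + (s f).im * I‖) ≤ C) →
          (∀ f ∈ T, ∀ g ∈ T, q f g * ∏ j, (1 + ‖κ f g j + ((s f).im - (s g).im) * I‖) ≤ Q) →
          (∀ f ∈ T,
            (σ ≤ (s f).re ∧ ¬((C * Q * Q') ^ (-ε) ≤ ‖L f (s f)‖ ∧ ‖L f (s f)‖ ≤ (C * Q * Q') ^ ε)) ∨
            (σ ≤ 3 / 4 ∧ 1 - σ ≤ (s f).re ∧ (s f).re ≤ σ ∧
              (C * Q * Q') ^ ε * C ^ ((σ - (s f).re) / 2) < ‖L f (s f)‖)) →
          T.Finite ∧ (T.ncard : ℝ) ≤ (C * Q * Q') ^ ε * Q ^ zexp k σ) ∧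
    (∀ B Q' : ℝ, 1 ≤ B → 1 ≤ Q' → ∃ A c : ℝ, 1 ≤ A ∧ 0 < c ∧
      ∀ (ι : Type) (S : ι → Finset (HeightOneSpectrum (𝓞 K)))
        (α : ι → HeightOneSpectrum (𝓞 K) → Fin n → ℂ) (u : ι → VX K → ℂ) (q : ι → ι → ℝ) (κ : ι → ι → Fin N → ℂ)
        (S' : Finset (HeightOneSpectrum (𝓞 K))) (α' : HeightOneSpectrum (𝓞 K) → Fin n' → ℂ) (w : VX K → ℂ) (q' : ℝ)
        (κ' : Fin N'' → ℂ) (qs : ι → ℝ) (μ : ι → Fin N' → ℂ) (L : ι → ℂ → ℂ) (C : ι → ℝ),
        GLFamily n N S α u q κ → Twists n' N' N'' u S' α' w q' κ' qs μ L → q' * ∏ j, (1 + ‖κ' j‖) ≤ Q' →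
        (∀ f, qs f * ∏ j, (1 + ‖μ f j‖) ≤ C f) → (∀ f, ∏ v ∈ S f, Nv v ≤ C f) →
        (∀ f g, q f g * ∏ j, (1 + ‖κ f g j‖) ≤ B * (C f * C g) ^ n) →
        ∀ X : ℝ, A ≤ X → ∃ E : Set ι, E.Finite ∧
          (E.ncard : ℝ) ≤ X ^ (2 * n * zexp (4 * n) σ + ε) ∧
          ∀ f, C f ≤ X → f ∉ E → ∀ s : ℂ, |s.im| ≤ X ^ c →
            (σ ≤ s.re → X ^ (-ε) ≤ ‖L f s‖ ∧ ‖L f s‖ ≤ X ^ ε) ∧
            (σ ≤ 3 / 4 → 1 - σ ≤ s.re → s.re ≤ σ → ‖L f s‖ ≤ X ^ ((σ - s.re) / 2 + ε))) ∧
    ((3 * n + 1) * (2 * n - 1) / (8 * n ^ 2 + n - 1) < σ → 2 * n * zexp (4 * n) σ < (n : ℝ) + 1) :=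
  ⟨all K n N n' N' N'' hn hε hσ hσ1, ing K n N n' N' N'' hn hε hσ hσ1,
    fun B Q' hB hQ' => univ K n N n' N' N'' hn hε hσ hσ1 B Q' hB hQ', fun h => zexp_univ hn h hσ1⟩

end Pool.Agent.Results.MP_52e316_nt.InghamMontgomery
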