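import Mathlib
import Pool.Agent.U575.MU.DirLow
import Pool.Agent.H855R2.SF.Data

/-!
# No multiplier of polynomial growth removes a large value of an L-function of `GL(m)`; the Grand Lindelöf Hypothesis and
mollifiers

Let `π` run through (a family of) cuspidal representations of `GL(m)`, normalised as in the problem, and let
`X = (1 + |T|) C_π`.

* (law for large values) For all `ε > 0` and `B` there are `δ > 0` and `A`, the same for the whole family, with the
  following property.  Let `|L(1/2 + iT, π)| ≥ X^ε`, `X` large (for instance `T = 0` and `C_π` large).  Let `G` be ANY function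
  which is analytic with `|G| ≤ X^B` in the rectangle `1/2 ≤ Re s ≤ 6`, `|Im s - T| ≤ A`, and such that
  `X^(-δ) ≤ |G| ≤ X^δ` in its part `Re s ≥ 3`.  Then `|L(1/2 + it, π) G(1/2 + it)| ≥ X^δ` for some `t` with `|t - T| ≤ A`.
* (criterion) The Grand Lindelöf Hypothesis for the family holds if and only if its members can be mollified to the size
  `X^δ` locally everywhere, by Dirichlet polynomials `∑_{n ≤ N} b_n n^(-s)`, `b_1 = 1`, `|b_n| ≤ n`, which may depend on
  `π` and on the place `T` and whose length may be any fixed power of `X`.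
* (no conspiracy inside a family) Near a value `|L(1/2 + iT, π)| ≥ X^ε` the product of `L(1/2 + it, π)` and of any `k` other
  L-functions `L(1/2 + it + a_l, π_l)` of the family, `Re a_l ≥ 0`, of conductors at most `X^E`, takes a value of size at
  least `X^δ`.  So a Lindelöf bound for products (such as Dedekind zeta functions of abelian number fields, in the
  aspect of the discriminant) implies the Lindelöf hypothesis for the factors.

The theorem uses only classical facts: the functional equation, `Re μ_j < 1/2`, finite order, and Molteni's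
bounds `C_π^(-ε) ≪ |L(σ + it, π)| ≪ C_π^ε` in `σ ≥ 1 + ε` (the lower bound is proved in the same way as the upper bound: the
inequality of Cauchy and Schwarz bounds `log |L(s, π)|` by `(log L(σ, π × π~) log ζ(σ))^(1/2)`).  For primitive Dirichlet
characters of modulus `q > 1` (`m = 1`) all of them are proved and the result holds unconditionally with `X = q (1 + |T|)`.

Proof.  As for `MP_4e5e8a_nt.MollifiersDoNotHelp` (the Riemann zeta function), uniformly in the family.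
-/

set_option autoImplicit false

open Filter Topology

namespace Pool.Agent.Results.MP_52e316_nt.MultipliersGLm

/-- The data of a standard L-function of `GL(m)`: the conductor `N`, the archimedean parameters `mu j` (the
factor at infinity is `∏ j, Γ_ℝ (s - mu j)`) and the L-function `f` (continued to the complex plane). -/
structure Datum (m : ℕ) where
  N : ℕ
  mu : Fin m → ℂ
  f : ℂ → ℂ

/-- The analytic conductor `C = N ∏ j, (1 + |mu j|)`. -/
noncomputable def Datum.C {m : ℕ} (D : Datum m) : ℝ := D.N * ∏ j, (1 + ‖D.mu j‖)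

/-- The classical properties: `N ≥ 1`, `Re (mu j) < 1/2`, `f` is entire, of finite order in the strip
`-1/4 ≤ Re s ≤ 5/4`, and satisfies the functional equation `Λ(s) = root N^(1/2-s) conj (Λ(1 - conj s))`,
`Λ(s) = f(s) ∏ j, Γ_ℝ (s - mu j)`, with `|root| = 1` (divided by the gamma factors of both sides). -/
structure Datum.Ok {m : ℕ} (D : Datum m) : Prop where
  N_pos : 0 < D.N
  mu_re : ∀ j, (D.mu j).re < 1 / 2
  entire : Differentiable ℂ D.f
  order : ∃ A : ℝ, ∀ s : ℂ, -1 / 4 ≤ s.re → s.re ≤ 5 / 4 →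
    ‖D.f s‖ ≤ Real.exp (A * (1 + |s.im|) ^ A)
  fe : ∃ root : ℂ, ‖root‖ = 1 ∧ ∀ s : ℂ,
    D.f s * ∏ j, (Complex.Gammaℝ (1 - s - (starRingEnd ℂ) (D.mu j)))⁻¹ =
      root * (D.N : ℂ) ^ (1 / 2 - s) * (starRingEnd ℂ) (D.f (1 - (starRingEnd ℂ) s)) *
        ∏ j, (Complex.Gammaℝ (s - D.mu j))⁻¹

/-- Molteni's bounds (upper and lower) to the right of the critical strip, uniform in the family. -/
def Molteni {ι : Type} {m : ℕ} (D : ι → Datum m) : Prop := ∀ ε : ℝ, 0 < ε → ∃ B : ℝ, 0 < B ∧ ∀ (i : ι) (s : ℂ),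
  1 + ε ≤ s.re → ‖(D i).f s‖ ≤ B * (D i).C ^ ε ∧ 1 ≤ B * (D i).C ^ ε * ‖(D i).f s‖

variable {ι : Type}

/-- `G` is analytic with `|G| ≤ X^B` in the rectangle `1/2 ≤ Re s ≤ 6`, `|Im s - T| ≤ A`, and
`X^(-δ) ≤ |G| ≤ X^δ` in its part `Re s ≥ 3`. -/
def Multiplier (G : ℂ → ℂ) (T X A B δ : ℝ) : Prop :=
  (∀ s : ℂ, 1 / 2 ≤ s.re → s.re ≤ 6 → |s.im - T| ≤ A → AnalyticAt ℂ G s ∧ ‖G s‖ ≤ X ^ B) ∧
  (∀ s : ℂ, 3 ≤ s.re → s.re ≤ 6 → |s.im - T| ≤ A → X ^ (-δ) ≤ ‖G s‖ ∧ ‖G s‖ ≤ X ^ δ)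

/-- The law for large values: no multiplier removes a large value, uniformly in the family. -/
def Law (L : ι → ℂ → ℂ) (X : ι → ℝ → ℝ) : Prop := ∀ ε B : ℝ, 0 < ε →
  ∃ δ A X₀ : ℝ, 0 < δ ∧ 0 < A ∧ 1 < X₀ ∧ ∀ (i : ι) (T : ℝ), X₀ ≤ X i T →
    X i T ^ ε ≤ ‖L i (1 / 2 + T * Complex.I)‖ → ∀ G : ℂ → ℂ, Multiplier G T (X i T) A B δ →
      ∃ t : ℝ, |t - T| ≤ A ∧
        X i T ^ δ ≤ ‖L i (1 / 2 + t * Complex.I) * G (1 / 2 + t * Complex.I)‖

/-- The Lindelöf hypothesis for the family. -/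
def Lindelof (L : ι → ℂ → ℂ) (X : ι → ℝ → ℝ) : Prop := ∀ ε : ℝ, 0 < ε → ∃ C : ℝ, ∀ (i : ι) (T : ℝ),
  ‖L i (1 / 2 + T * Complex.I)‖ ≤ C * X i T ^ ε

/-- the Dirichlet polynomial with the coefficients `b_1, ..., b_N` -/
noncomputable def M (N : ℕ) (b : ℕ → ℂ) (s : ℂ) : ℂ := ∑ n ∈ Finset.Icc 1 N, b n * (n : ℂ) ^ (-s)

/-- The family can be mollified locally everywhere, by Dirichlet polynomials of length at most a power of `X`. -/
def Mollifiable (L : ι → ℂ → ℂ) (X : ι → ℝ → ℝ) : Prop := ∃ B : ℝ, ∀ δ A : ℝ, 0 < δ → 0 < A → ∃ X₀ : ℝ,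
  ∀ (i : ι) (T : ℝ), X₀ ≤ X i T → ∃ (N : ℕ) (b : ℕ → ℂ), 1 ≤ N ∧ (N : ℝ) ≤ X i T ^ B ∧ b 1 = 1 ∧
    (∀ n, ‖b n‖ ≤ n) ∧
    ∀ t : ℝ, |t - T| ≤ A → ‖L i (1 / 2 + t * Complex.I) * M N b (1 / 2 + t * Complex.I)‖ ≤ X i T ^ δ

/-- Near a large value of a member its product with any `k` members of comparable conductors is large. -/
def Joint (L : ι → ℂ → ℂ) (X : ι → ℝ → ℝ) : Prop := ∀ (ε E : ℝ) (k : ℕ), 0 < ε → 0 ≤ E →
  ∃ δ A X₀ : ℝ, 0 < δ ∧ 0 < A ∧ 1 < X₀ ∧ ∀ (i : ι) (T : ℝ), X₀ ≤ X i T →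
    X i T ^ ε ≤ ‖L i (1 / 2 + T * Complex.I)‖ → ∀ (j : Fin k → ι) (a : Fin k → ℂ),
      (∀ l, 0 ≤ (a l).re) → (∀ l, X (j l) (T + (a l).im) ≤ X i T ^ E) →
      ∃ t : ℝ, |t - T| ≤ A ∧
        X i T ^ δ ≤ ‖L i (1 / 2 + t * Complex.I) * ∏ l, L (j l) (1 / 2 + t * Complex.I + a l)‖

/-- The conclusion for a family. -/
def Conclusion (L : ι → ℂ → ℂ) (X : ι → ℝ → ℝ) : Prop :=
  Law L X ∧ (Lindelof L X ↔ Mollifiable L X) ∧ Joint L X

section proofs

open Pool.Agent.U575.MU H855R2.SF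

theorem conclusion_of {L : ι → ℂ → ℂ} {X Q : ι → ℝ → ℝ} {m p : ℝ} (H : FamX L X m p Q) : Conclusion L X :=
  ⟨fun ε B hε => law_fam H ε B hε, GLH_iff_moll H, fun ε E k hε hE => joint_fam H ε E k hε hE⟩

theorem Datum.C_one {m : ℕ} {D : Datum m} (h : 0 < D.N) : 1 ≤ D.C := by
  have := cond_one_le h D.mu 0
  unfold Datum.C
  simpa using this

theorem afam_gl {m : ℕ} (hm : 1 ≤ m) {D : ι → Datum m} (hD : ∀ i, (D i).Ok) (hM : Molteni D) :
    AFam (m : ℝ) (fun i => (D i).f) (fun i t => ((1 + |t|) * (D i).C) ^ (m : ℝ)) where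
  m0 := by positivity
  Q1 := by
    intro i t
    refine Real.one_le_rpow ?_ (by positivity)
    have h1 := (D i).C_one (hD i).N_pos
    nlinarith [abs_nonneg t]
  Qs := by
    intro i t u
    have h1 := (D i).C_one (hD i).N_pos
    have h2 : 1 + |t + u| ≤ (1 + |u|) * (1 + |t|) := by
      have := abs_add_le t u
      nlinarith [abs_nonneg t, abs_nonneg u, mul_nonneg (abs_nonneg t) (abs_nonneg u)]
    rw [← Real.mul_rpow (by positivity) (by positivity)]
    refine Real.rpow_le_rpow (by positivity) ?_ (by positivity)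
    calc (1 + |t + u|) * (D i).C ≤ ((1 + |u|) * (1 + |t|)) * (D i).C :=
          mul_le_mul_of_nonneg_right h2 (by linarith)
      _ = _ := by ring
  diff := fun i => (hD i).entire
  order := fun i => (hD i).order
  right := by
    intro δ hδ
    obtain ⟨B, hB0, hB⟩ := hM δ hδ
    refine ⟨B, fun i s hs => ?_⟩
    have h1 := (D i).C_one (hD i).N_pos
    refine (hB i s hs).1.trans ?_
    have h2 : (D i).C ≤ (1 + |s.im|) * (D i).C := by
      nlinarith [abs_nonneg s.im]
    have h3 : (D i).C ≤ ((1 + |s.im|) * (D i).C) ^ (m : ℝ) := by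
      refine h2.trans ?_
      conv_lhs => rw [← Real.rpow_one ((1 + |s.im|) * (D i).C)]
      exact Real.rpow_le_rpow_of_exponent_le (by linarith) (by exact_mod_cast hm)
    exact mul_le_mul_of_nonneg_left (Real.rpow_le_rpow (by linarith) h3 hδ.le) hB0.le
  refl := by
    refine ⟨16 ^ m, by positivity, fun i x t hx0 hx1 => ?_⟩
    obtain ⟨root, hroot, hfe⟩ := (hD i).fe
    have h1 := (D i).C_one (hD i).N_pos
    refine (refl_of_fe (hD i).N_pos (D i).mu (hD i).mu_re hroot hfe (t := t) hx0 hx1).trans ?_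
    refine mul_le_mul_of_nonneg_right ?_ (norm_nonneg _)
    refine mul_le_mul_of_nonneg_left ?_ (by positivity)
    refine Real.rpow_le_rpow (by positivity) ?_ hx0
    have h2 := cond_shift (D i).N (D i).mu 0 t
    have e1 : (D i).N * ∏ j, (1 + ‖(D i).mu j - ((0 : ℝ) : ℂ) * Complex.I‖) = (D i).C := by
      unfold Datum.C; simp
    rw [e1, zero_add] at h2
    refine h2.trans ?_
    rw [Real.mul_rpow (by positivity) (by linarith)]
    refine mul_le_mul_of_nonneg_left ?_ (by positivity)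
    conv_lhs => rw [← Real.rpow_one (D i).C]
    exact Real.rpow_le_rpow_of_exponent_le h1 (by exact_mod_cast hm)

theorem famX_gl {m : ℕ} (hm : 1 ≤ m) {D : ι → Datum m} (hD : ∀ i, (D i).Ok) (hM : Molteni D) :
    FamX (fun i => (D i).f) (fun i T => (1 + |T|) * (D i).C) (m : ℝ) (m : ℝ)
      (fun i t => ((1 + |t|) * (D i).C) ^ (m : ℝ)) where
  afam := afam_gl hm hD hM
  low := by
    intro δ hδ
    obtain ⟨B, hB0, hB⟩ := hM δ hδ
    refine ⟨B, hB0, fun i s hs => ?_⟩
    have h1 := (D i).C_one (hD i).N_pos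
    refine (hB i s hs).2.trans ?_
    have h2 : (D i).C ≤ (1 + |s.im|) * (D i).C := by
      nlinarith [abs_nonneg s.im]
    have h3 : (D i).C ≤ ((1 + |s.im|) * (D i).C) ^ (m : ℝ) := by
      refine h2.trans ?_
      conv_lhs => rw [← Real.rpow_one ((1 + |s.im|) * (D i).C)]
      exact Real.rpow_le_rpow_of_exponent_le (by linarith) (by exact_mod_cast hm)
    refine mul_le_mul_of_nonneg_right ?_ (norm_nonneg _)
    exact mul_le_mul_of_nonneg_left (Real.rpow_le_rpow (by linarith) h3 hδ.le) hB0.le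
  p0 := by exact_mod_cast hm
  X1 := by
    intro i t
    have h1 := (D i).C_one (hD i).N_pos
    nlinarith [abs_nonneg t]
  QX := fun _ _ => rfl

end proofs

theorem result :
    (∀ (ι : Type) (m : ℕ) (D : ι → Datum m), 1 ≤ m → (∀ i, (D i).Ok) → Molteni D →
      Conclusion (fun i => (D i).f) (fun i T => (1 + |T|) * (D i).C)) ∧
    (∀ (ι : Type) (q : ι → ℕ) [∀ i, NeZero (q i)] (χ : (i : ι) → DirichletCharacter ℂ (q i)),
      (∀ i, 1 < q i ∧ (χ i).IsPrimitive) →
      Conclusion (fun i => DirichletCharacter.LFunction (χ i)) (fun i T => (q i : ℝ) * (1 + |T|))) := by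
  refine ⟨fun ι m D hm hD hM => conclusion_of (famX_gl hm hD hM), fun ι q _ χ h => ?_⟩
  exact conclusion_of (Pool.Agent.U575.MU.FamX.comp (Pool.Agent.U575.MU.dir_famX (fun _ _ => True))
    (fun i => (⟨q i, (h i).1, χ i, (h i).2, trivial⟩ : H855R2.SF.DC (fun _ _ => True))))

end Pool.Agent.Results.MP_52e316_nt.MultipliersGLm
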