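import Pool.Agent.W169.HF.Fam4

/-!
# The Grand Lindelöf Hypothesis for `GL(m)` and de Bruijn-Newman constants

`π` runs through the L-functions of cuspidal automorphic representations of `GL_m(𝔸_ℚ)` (`CuspidalL m`);
`C_π = N ∏ (1 + |μ_j|)` is the analytic conductor, `C_π(t) = N ∏ (1 + |i t - μ_j|)` the analytic conductor
at the height `t`, `ξ_π(s) = N^(s/2) Λ(s, π)` and `ξ_τ = e^{τ D²} ξ_π` (`D = d/ds`) its heat flow.  The
de Bruijn-Newman constant `Λ(π)` is the least `τ₀` such that for all `τ ≥ τ₀` all zeros of `ξ_τ` are on the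
line `Re s = 1/2`; the Riemann hypothesis for `L(s, π)` is `Λ(π) ≤ 0`.

Let `P` be any set of `π` (for example all of them) and `κ ≥ 0`.

* `Newman P κ`: `Λ(π) ≤ (κ + o(1)) / log Q`, uniformly in `π ∈ P` and in the lower bounds `Q` of all the
  conductors `C_π(y)`, `y` real, as `Q → ∞`;
* `NewmanLevel P κ`: `Λ(π) ≤ (κ + o(1)) / log N`, uniformly in `π ∈ P`, as the level `N → ∞`
  (implied by `Newman P κ`).

Theorem.  Let `m ≥ 1`.

1. `Newman P 1` holds for every `P`, unconditionally.  (The Ramanujan conjecture is not assumed; the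
   starting theorem `MP_77948b_nt.NewmanAutomorphic` has the constant `1 + 2θ` if the Satake parameters at
   `p` are known to be at most `p^θ`, so the constant `2` in general.)
2. The bound `L(1/2 + it, π) ≪ C_π(t)^(a + ε)`, uniformly in `π ∈ P` and `t`, implies
   `Newman P (1 / (2 - 4a))`, `0 ≤ a ≤ 1/4`; so every uniform subconvex bound lowers the constant `1`, and the
   Grand Lindelöf Hypothesis for `P` implies `Newman P (1/2)`.
3. Conversely `NewmanLevel P κ` implies `L(1/2 + it, π) ≪ N^(κ/4 + ε)` for the `π ∈ P` with `|μ_j| ≤ T` and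
   `|t| ≤ T`, for every `T`.  So if the de Bruijn-Newman constants in `P` are `o(1 / log N)`, then the Grand
   Lindelöf Hypothesis holds for `P` in the level aspect.
-/

set_option autoImplicit false

open Complex
open scoped ComplexConjugate

namespace Pool.Agent.Results.MP_52e316_nt.NewmanConstantsGLm

/-- Analytic data of a cuspidal automorphic representation of `GL_m(𝔸_ℚ)` (not the trivial one for
`m = 1`), normalised as in the problem: conductor `N`, archimedean parameters `μ_j` with `Re μ_j ≤ 1/2` and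
`∑ Im μ_j = 0` (the central character is trivial on the positive reals), Satake parameters
`|α_j(p)| ≤ √p`, root number `ε`, and the entire completed L-function `Λ` (gamma factors times Euler product
for `Re s > 3/2`) with the functional equation, finite order in vertical strips and no zeros in
`Re s > 1` (all known: Godement-Jacquet, Jacquet-Shalika). -/
structure CuspidalL (m : ℕ) where
  /-- the conductor -/
  N : ℝ
  /-- the archimedean parameters -/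
  μ : Fin m → ℂ
  /-- the Satake parameters -/
  α : Fin m → ℕ → ℂ
  /-- the root number -/
  ε : ℂ
  /-- the completed L-function -/
  Λ : ℂ → ℂ
  one_le : 1 ≤ N
  re_le : ∀ j, (μ j).re ≤ 1 / 2
  normalised : ∑ j, (μ j).im = 0
  norm_le : ∀ j, ∀ p : ℕ, p.Prime → ‖α j p‖ ≤ Real.sqrt p
  norm_eq : ‖ε‖ = 1
  entire : Differentiable ℂ Λ
  euler : ∀ s : ℂ, 3 / 2 < s.re → Λ s = (∏ j, Gammaℝ (s - μ j)) *
    ∏' p : Nat.Primes, ∏ j, (1 - α j p * (p : ℂ) ^ (-s))⁻¹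
  fe : ∀ s : ℂ, Λ s = ε * (N : ℂ) ^ (1 / 2 - s) * conj (Λ (1 - conj s))
  bdd : ∀ a b : ℝ, ∃ M, ∀ s : ℂ, a ≤ s.re → s.re ≤ b → ‖Λ s‖ ≤ Real.exp (M * (1 + |s.im|))
  ne_zero : ∀ s : ℂ, 1 < s.re → Λ s ≠ 0

variable {m : ℕ}

/-- The L-function `L(s, π) = Λ(s, π) / ∏ Γ_ℝ(s - μ_j)`. -/
noncomputable def L (π : CuspidalL m) (s : ℂ) : ℂ := π.Λ s * ∏ j, (Gammaℝ (s - π.μ j))⁻¹

/-- The analytic conductor `C_π = N ∏ (1 + |μ_j|)`. -/
noncomputable def C (π : CuspidalL m) : ℝ := π.N * ∏ j, (1 + ‖π.μ j‖)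

/-- The analytic conductor at the height `t`: `C_π(t) = N ∏ (1 + |i t - μ_j|)`. -/
noncomputable def Ct (π : CuspidalL m) (t : ℝ) : ℝ := π.N * ∏ j, (1 + ‖(t : ℂ) * I - π.μ j‖)

/-- `ξ_π(s) = N^(s/2) Λ(s, π)`. -/
noncomputable def xi (π : CuspidalL m) (s : ℂ) : ℂ := (π.N : ℂ) ^ (s / 2) * π.Λ s

/-- The heat flow `e^{τ D²} F` (`D = d/ds`) as a Gaussian average:
`π^(-1/2) ∫ exp (-v²) F(s + 2 √τ v) dv`. -/
noncomputable def heat (τ : ℝ) (F : ℂ → ℂ) (s : ℂ) : ℂ :=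
  ((1 / Real.sqrt Real.pi : ℝ) : ℂ) *
    ∫ v : ℝ, ((Real.exp (-v ^ 2) : ℝ) : ℂ) * F (s + ((2 * Real.sqrt τ * v : ℝ) : ℂ))

/-- The Grand Lindelöf Hypothesis for the `π` in `P`. -/
def GLH (P : CuspidalL m → Prop) : Prop :=
  ∀ ε : ℝ, 0 < ε → ∃ B : ℝ, ∀ π : CuspidalL m, P π → ∀ t : ℝ,
    ‖L π (1 / 2 + (t : ℂ) * I)‖ ≤ B * ((1 + |t|) * C π) ^ ε

/-- `L(1/2 + i t, π) ≪ C_π(t)^(a + ε)` for every `ε > 0`, uniformly in `π ∈ P` and `t`. -/
def Size (P : CuspidalL m → Prop) (a : ℝ) : Prop :=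
  ∀ ε : ℝ, 0 < ε → ∃ B : ℝ, ∀ π : CuspidalL m, P π → ∀ t : ℝ,
    ‖L π (1 / 2 + (t : ℂ) * I)‖ ≤ B * Ct π t ^ (a + ε)

/-- The de Bruijn-Newman constant of `π` is at most `τ₀`. -/
def NewmanLe (π : CuspidalL m) (τ₀ : ℝ) : Prop :=
  ∀ τ : ℝ, τ₀ ≤ τ → ∀ s : ℂ, heat τ (xi π) s = 0 → s.re = 1 / 2

/-- The de Bruijn-Newman constants of the `π` in `P` are at most `(κ + o(1)) / log Q`, for all lower bounds
`Q` of the conductors `C_π(y)`, `y` real, as `Q → ∞`. -/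
def Newman (P : CuspidalL m → Prop) (κ : ℝ) : Prop :=
  ∀ η : ℝ, 0 < η → ∃ Q₀ : ℝ, ∀ π : CuspidalL m, P π → ∀ Q : ℝ, Q₀ ≤ Q → (∀ y : ℝ, Q ≤ Ct π y) →
    NewmanLe π ((κ + η) / Real.log Q)

/-- The de Bruijn-Newman constants of the `π` in `P` are at most `(κ + o(1)) / log N`, as `N → ∞`. -/
def NewmanLevel (P : CuspidalL m → Prop) (κ : ℝ) : Prop :=
  ∀ η : ℝ, 0 < η → ∃ N₀ : ℝ, ∀ π : CuspidalL m, P π → N₀ ≤ π.N → NewmanLe π ((κ + η) / Real.log π.N)

open Pool.Agent.W169.HF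

lemma std (π : CuspidalL m) : Std π.N π.μ π.α π.ε π.Λ :=
  ⟨{ one_le := π.one_le
     re_le := π.re_le
     norm_le := fun j p hp => by
       rw [← Real.sqrt_eq_rpow]
       exact π.norm_le j p hp
     norm_eq := π.norm_eq
     entire := π.entire
     euler := fun s hs => π.euler s (by linarith)
     fe := π.fe
     bdd := π.bdd }, π.ne_zero⟩

/-- the class of tuples -/
def cls (P : CuspidalL m → Prop) : Cls m := fun N μ α e Λ =>
  ∃ π : CuspidalL m, P π ∧ π.N = N ∧ π.μ = μ ∧ π.α = α ∧ π.ε = e ∧ π.Λ = Λ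

lemma rpow_exp {x : ℝ} (hx : 1 ≤ x) (a : ℝ) : x ^ a = Real.exp (a * Real.log x) := by
  rw [Real.rpow_def_of_pos (by linarith), mul_comm]

lemma prod_one (π : CuspidalL m) : 1 ≤ ∏ j, (1 + ‖π.μ j‖) := by
  refine Finset.prod_induction _ (fun x => (1 : ℝ) ≤ x) (fun a b ha hb => ?_) le_rfl fun j _ => ?_
  · nlinarith
  · linarith [norm_nonneg (π.μ j)]

lemma C_one (π : CuspidalL m) (t : ℝ) : 1 ≤ (1 + |t|) * C π := by
  have h1 := prod_one π
  have h2 : 1 ≤ C π := by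
    unfold C
    have := π.one_le
    nlinarith
  have := abs_nonneg t
  nlinarith

lemma size_iff (P : CuspidalL m → Prop) (a : ℝ) : Size P a ↔ SE (cls P) a := by
  constructor
  · intro h ε hε
    obtain ⟨B, HB⟩ := h ε hε
    refine ⟨Real.log (max B 1), ?_⟩
    rintro N μ α e Λ ⟨π, hP, rfl, rfl, rfl, rfl, rfl⟩ _ y
    have hB : 0 < max B 1 := lt_max_of_lt_right one_pos
    refine (HB π hP y).trans ?_
    have h1 : 1 ≤ cnd π.N π.μ y := cnd_pos π.one_le π.μ y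
    change B * cnd π.N π.μ y ^ (a + ε) ≤ _
    rw [rpow_exp h1, Real.exp_add, Real.exp_log hB]
    exact mul_le_mul_of_nonneg_right (le_max_left _ _) (Real.exp_pos _).le
  · intro h ε hε
    obtain ⟨B, HB⟩ := h ε hε
    refine ⟨Real.exp B, fun π hP t => ?_⟩
    have h2 := HB π.N π.μ π.α π.ε π.Λ ⟨π, hP, rfl, rfl, rfl, rfl, rfl⟩ (std π) t
    have h1 : 1 ≤ cnd π.N π.μ t := cnd_pos π.one_le π.μ t
    change _ ≤ Real.exp B * cnd π.N π.μ t ^ (a + ε)
    rw [rpow_exp h1, ← Real.exp_add]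
    exact h2

/-- `(1 + |t|) C_π ≤ C_π(t)^{m + 2}`-type comparison, in the form needed here -/
lemma glh_size (hm : 1 ≤ m) (P : CuspidalL m → Prop) (h : GLH P) : Size P 0 := by
  intro ε hε
  have hm' : (1 : ℝ) ≤ m := by exact_mod_cast hm
  obtain ⟨B, HB⟩ := h (ε / (m + 2)) (by positivity)
  refine ⟨max B 1, fun π hP y => ?_⟩
  have hB : 0 < max B 1 := lt_max_of_lt_right one_pos
  refine (HB π hP y).trans ?_
  have h0 : 1 ≤ cnd π.N π.μ y := cnd_pos π.one_le π.μ y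
  change _ ≤ max B 1 * cnd π.N π.μ y ^ (0 + ε)
  rw [rpow_exp (C_one π y), rpow_exp h0]
  refine mul_le_mul (le_max_left _ _) (Real.exp_le_exp.2 ?_) (Real.exp_pos _).le hB.le
  have h1 := (cnd_norm π.one_le π.μ hm π.normalised y).1
  change Real.log ((1 + |y|) * C π) ≤ _ at h1
  rw [div_mul_eq_mul_div, div_le_iff₀ (by positivity), zero_add]
  have h2 := mul_le_mul_of_nonneg_left h1 hε.le
  linarith

/-- **Main theorem.** Let `m ≥ 1` and let `P` be a set of `π`.  (1) `Newman P 1` holds; (2) `Size P a`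
implies `Newman P (1 / (2 - 4a))` for `0 ≤ a ≤ 1/4`, and the Grand Lindelöf Hypothesis for `P` implies
`Newman P (1/2)`; (3) `Newman P κ` implies `NewmanLevel P κ`, and `NewmanLevel P κ` implies
`L(1/2 + it, π) ≪ N^(κ/4 + ε)` for `π ∈ P`, `|μ_j| ≤ T`, `|t| ≤ T`, for all `κ ≥ 0` and all `T`. -/
theorem result (hm : 1 ≤ m) (P : CuspidalL m → Prop) :
    Newman P 1 ∧
    (∀ a : ℝ, 0 ≤ a → a ≤ 1 / 4 → Size P a → Newman P (1 / (2 - 4 * a))) ∧
    (GLH P → Newman P (1 / 2)) ∧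
    (∀ κ : ℝ, Newman P κ → NewmanLevel P κ) ∧
    (∀ κ : ℝ, 0 ≤ κ → NewmanLevel P κ → ∀ ε T : ℝ, 0 < ε → ∃ B : ℝ, ∀ π : CuspidalL m, P π →
      (∀ j, ‖π.μ j‖ ≤ T) → ∀ t : ℝ, |t| ≤ T →
        ‖L π (1 / 2 + (t : ℂ) * I)‖ ≤ B * π.N ^ (κ / 4 + ε)) := by
  have hsn : ∀ κ : ℝ, SN (cls P) κ → Newman P κ := by
    intro κ h η hη
    obtain ⟨Q0, -, H⟩ := h η hη
    exact ⟨Q0, fun π hP Q hQ hQc τ hτ s hs =>
      H π.N π.μ π.α π.ε π.Λ ⟨π, hP, rfl, rfl, rfl, rfl, rfl⟩ (std π) Q hQ hQc τ hτ s hs⟩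
  have h2 : ∀ a : ℝ, 0 ≤ a → a ≤ 1 / 4 → Size P a → Newman P (1 / (2 - 4 * a)) := by
    intro a ha ha1 h
    exact hsn _ (sh_sn hm (div_nonneg zero_le_one (by linarith))
      (se_sh hm ha ha1 ((size_iff P a).1 h)))
  refine ⟨hsn 1 (sh_sn hm zero_le_one (sh_one hm)), h2, fun h => ?_, fun κ h η hη => ?_, ?_⟩
  · have := h2 0 le_rfl (by norm_num) (glh_size hm P h)
    norm_num at this
    exact this
  · obtain ⟨Q0, H⟩ := h η hη
    exact ⟨Q0, fun π hP hN => H π hP π.N hN fun y => le_cnd π.one_le π.μ y⟩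
  · intro κ hκ h ε T hε
    have h3 : SNq (cls P) κ := by
      intro η hη
      obtain ⟨N0, H⟩ := h η hη
      refine ⟨N0, ?_⟩
      rintro N μ α e Λ ⟨π, hP, rfl, rfl, rfl, rfl, rfl⟩ _ hN t ht s hs
      exact H π hP hN t ht s hs
    obtain ⟨B, HB⟩ := sn_sl hm hκ h3 ε T hε
    refine ⟨Real.exp B, fun π hP hμ t ht => ?_⟩
    have h4 := HB π.N π.μ π.α π.ε π.Λ ⟨π, hP, rfl, rfl, rfl, rfl, rfl⟩ (std π) hμ t ht
    rw [rpow_exp π.one_le, ← Real.exp_add]
    exact h4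

end Pool.Agent.Results.MP_52e316_nt.NewmanConstantsGLm
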