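import Pool.Agent.U693.QT.Lind
import Pool.Agent.Y812.QTN2

/-!
# All derivatives of `L(E_d, s)` on the critical line for almost all quadratic twists: the bound of
the Lindelöf hypothesis with a power of the logarithm in place of the power `ε`

`E_d : y² = x³ + a d² x + b d³`, `d` squarefree (positive or negative), are the quadratic twists of
`E : y² = x³ + a x + b`; the critical line is `Re s = 1`.  We prove, without any hypothesis, for all `E`
with `j`-invariant `0` or `1728` and for all quadratic twists of `X₀(11)` and `X₀(14)`, and for every
elliptic curve over `ℚ` whose quadratic twists are modular: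

* for arbitrary orders `k_d ≥ 0` and ordinates `t_d` (for instance those at which the summand is
  largest), `∑_{|d| ≤ X} |L^(k_d)(E_d, 1 + i t_d) / (k_d! (4 log X)^k_d)|² / (2 + |t_d|)^B ≤ C X (log X)^A`;
* for every `K` there is a `K'` such that for all `|d| ≤ X` except `O(X / (log X)^K)`, for all `k` and all
  real `t`, `|L^(k)(E_d, 1 + i t)| ≤ k! (4 log X)^k ((log X) (2 + |t|))^K'`.

The proof uses the large sieve inequality for quadratic characters with a loss of a power of `log X` of
the starting library (project QT), here in the form of a mean value on rays close to the imaginary axis,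
for all angles, and the subharmonicity of `|L|²`.
-/

set_option autoImplicit false

namespace Pool.Agent.Results.MP_52e316_nt.TwistsLogPower

open Pool.Agent.Y19.QT Pool.Agent.U693.QT

theorem result : (∀ a b : ℤ, Fam a b → DerivLaw a b) ∧
    ∀ a b : ℤ, 4 * a ^ 3 + 27 * b ^ 2 ≠ 0 → TwistsModular a b → DerivLaw a b :=
  ⟨fun _ _ h => derivLaw_of h.disc h.data.1 h.data.2,
    fun _ _ hab h => derivLaw_of hab (Pool.Agent.Y812.QTN2.of_twistsModular hab h).1
      fun d hd => (Pool.Agent.Y812.QTN2.of_twistsModular hab h).2 d hd.ne_zero⟩

end Pool.Agent.Results.MP_52e316_nt.TwistsLogPower
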